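import Mathlib

/-!
# Presentations by equations of the forms `x = c`, `x + y = z`, `x y = z`

Let `G` be a set of elements of the ring `R` such that all elements of `R` are obtained from the elements of
`G` by additions, multiplications, subtractions and divisions.  Then every finitely generated algebra over
`R` has a presentation by finitely many equations of the forms `x_i = c`, `c ∈ G`, `x_i + x_j = x_k` and
`x_i x_j = x_k`.
-/

set_option autoImplicit false

open MvPolynomial

namespace Pool.Agent.U583.ON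

section

variable {R : Type} [CommRing R]

/-- The polynomial `f` is of one of the forms `x_i - c`, `c ∈ G`, or `x_i + x_j - x_k`, or
`x_i x_j - x_k`. -/
def IsElementary (G : Set R) {σ : Type} (f : MvPolynomial σ R) : Prop :=
  (∃ i, ∃ c ∈ G, f = X i - C c) ∨ (∃ i j k, f = X i + X j - X k) ∨ ∃ i j k, f = X i * X j - X k

/-- The element `r` is obtained from the elements of `G` by the operations of the ring and by divisions. -/
inductive Gen (G : Set R) : R → Prop
  | base (c : R) : c ∈ G → Gen G c
  | add (a b : R) : Gen G a → Gen G b → Gen G (a + b)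
  | mul (a b : R) : Gen G a → Gen G b → Gen G (a * b)
  | neg (a : R) : Gen G a → Gen G (-a)
  | inv (a b : R) : a * b = 1 → Gen G a → Gen G b

variable {B : Type} [CommRing B] [Algebra R B] {r : ℕ} (G : Set R) (b : Fin r → B)

/-- The values `a i` satisfy the elementary equations which are true for the values `v i`. -/
structure Sat {ι : Type} (v : ι → B) {A : Type} [CommRing A] [Algebra R A] (a : ι → A) : Prop where
  base : ∀ i, ∀ c ∈ G, v i = algebraMap R B c → a i = algebraMap R A c
  add : ∀ i j k, v i + v j = v k → a i + a j = a k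
  mul : ∀ i j k, v i * v j = v k → a i * a j = a k

/-- A finite family of polynomials, containing the variables, whose values are determined by the
elementary equations. -/
structure Fam where
  ι : Type
  fin : Fintype ι
  p : ι → MvPolynomial (Fin r) R
  x : Fin r → ι
  hx : ∀ t, p (x t) = X t
  closed : ∀ (A : Type) [CommRing A] [Algebra R A] (a : ι → A),
    Sat G (fun i => aeval b (p i)) a → ∀ i, a i = aeval (a ∘ x) (p i)

variable {G b}

namespace Fam

attribute [instance] Fam.fin

/-- the polynomial belongs to the family -/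
def Has (F : Fam G b) (q : MvPolynomial (Fin r) R) : Prop := ∃ i, F.p i = q

/-- the order of the families -/
def Le (F F' : Fam G b) : Prop := ∀ q, F.Has q → F'.Has q

lemma Le.trans {F F' F'' : Fam G b} (h : F.Le F') (h' : F'.Le F'') : F.Le F'' :=
  fun q hq => h' q (h q hq)

/-- one more polynomial -/
def extend (F : Fam G b) (q : MvPolynomial (Fin r) R)
    (hq : ∀ (A : Type) [CommRing A] [Algebra R A] (a : Option F.ι → A),
      Sat G (fun i : Option F.ι => aeval b (i.elim q F.p)) a →
      (∀ i, a (some i) = aeval (fun t => a (some (F.x t))) (F.p i)) →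
      a none = aeval (fun t => a (some (F.x t))) q) : Fam G b where
  ι := Option F.ι
  fin := inferInstance
  p := fun i => i.elim q F.p
  x := fun t => some (F.x t)
  hx := F.hx
  closed := by
    intro A _ _ a ha
    have h1 : Sat G (fun i => aeval b (F.p i)) (fun i => a (some i)) :=
      ⟨fun i c hc h => ha.base (some i) c hc h, fun i j k h => ha.add (some i) (some j) (some k) h,
        fun i j k h => ha.mul (some i) (some j) (some k) h⟩
    have h2 := F.closed A _ h1
    intro i
    cases i with
    | none => exact hq A a ha h2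
    | some i => exact h2 i

lemma extend_has (F : Fam G b) (q : MvPolynomial (Fin r) R) (hq) : (F.extend q hq).Has q :=
  ⟨none, rfl⟩

lemma extend_le (F : Fam G b) (q : MvPolynomial (Fin r) R) (hq) : F.Le (F.extend q hq) := by
  rintro _ ⟨i, rfl⟩
  exact ⟨some i, rfl⟩

lemma exists_add (F : Fam G b) {p q : MvPolynomial (Fin r) R} (hp : F.Has p) (hq : F.Has q) :
    ∃ F' : Fam G b, F.Le F' ∧ F'.Has (p + q) := by
  obtain ⟨i, rfl⟩ := hp
  obtain ⟨j, rfl⟩ := hq
  refine ⟨F.extend (F.p i + F.p j) ?_, F.extend_le _ _, F.extend_has _ _⟩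
  intro A _ _ a ha h
  have := ha.add (some i) (some j) none (by simp)
  rw [← this, h i, h j, map_add]

lemma exists_mul (F : Fam G b) {p q : MvPolynomial (Fin r) R} (hp : F.Has p) (hq : F.Has q) :
    ∃ F' : Fam G b, F.Le F' ∧ F'.Has (p * q) := by
  obtain ⟨i, rfl⟩ := hp
  obtain ⟨j, rfl⟩ := hq
  refine ⟨F.extend (F.p i * F.p j) ?_, F.extend_le _ _, F.extend_has _ _⟩
  intro A _ _ a ha h
  have := ha.mul (some i) (some j) none (by simp)
  rw [← this, h i, h j, map_mul]

lemma exists_zero (F : Fam G b) : ∃ F' : Fam G b, F.Le F' ∧ F'.Has 0 := by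
  refine ⟨F.extend 0 ?_, F.extend_le _ _, F.extend_has _ _⟩
  intro A _ _ a ha h
  have := ha.add none none none (by simp)
  rw [map_zero]
  exact left_eq_add.1 this.symm

lemma exists_neg (F : Fam G b) {p : MvPolynomial (Fin r) R} (hp : F.Has p) :
    ∃ F' : Fam G b, F.Le F' ∧ F'.Has (-p) := by
  obtain ⟨F₁, h₁, ⟨z, hz⟩⟩ := F.exists_zero
  obtain ⟨i, rfl⟩ := h₁ _ hp
  refine ⟨F₁.extend (-(F₁.p i)) ?_, h₁.trans (F₁.extend_le _ _), F₁.extend_has _ _⟩
  intro A _ _ a ha h
  have h1 := ha.add none (some i) (some z) (by simp [hz])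
  have h2 := h z
  rw [hz, map_zero] at h2
  rw [h2, h i] at h1
  rw [map_neg]
  exact eq_neg_of_add_eq_zero_left h1

lemma exists_base (F : Fam G b) {c : R} (hc : c ∈ G) :
    ∃ F' : Fam G b, F.Le F' ∧ F'.Has (C c) := by
  refine ⟨F.extend (C c) ?_, F.extend_le _ _, F.extend_has _ _⟩
  intro A _ _ a ha _
  have := ha.base none c hc (by simp)
  rw [this, aeval_C]

lemma exists_const (h1 : (1 : R) ∈ G) (c : R) (hc : Gen G c) : ∀ F : Fam G b,
    ∃ F' : Fam G b, F.Le F' ∧ F'.Has (C c) := by
  induction hc with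
  | base c hc => exact fun F => F.exists_base hc
  | add x y _ _ hx hy =>
    intro F
    obtain ⟨F₁, l₁, k₁⟩ := hx F
    obtain ⟨F₂, l₂, k₂⟩ := hy F₁
    obtain ⟨F₃, l₃, k₃⟩ := F₂.exists_add (l₂ _ k₁) k₂
    refine ⟨F₃, (l₁.trans l₂).trans l₃, ?_⟩
    rw [map_add]
    exact k₃
  | mul x y _ _ hx hy =>
    intro F
    obtain ⟨F₁, l₁, k₁⟩ := hx F
    obtain ⟨F₂, l₂, k₂⟩ := hy F₁
    obtain ⟨F₃, l₃, k₃⟩ := F₂.exists_mul (l₂ _ k₁) k₂
    refine ⟨F₃, (l₁.trans l₂).trans l₃, ?_⟩
    rw [map_mul]
    exact k₃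
  | neg x _ hx =>
    intro F
    obtain ⟨F₁, l₁, k₁⟩ := hx F
    obtain ⟨F₂, l₂, k₂⟩ := F₁.exists_neg k₁
    refine ⟨F₂, l₁.trans l₂, ?_⟩
    rw [map_neg]
    exact k₂
  | inv x y hxy _ hx =>
    intro F
    obtain ⟨F₁, l₁, k₁⟩ := hx F
    obtain ⟨F₂, l₂, ⟨o, ho⟩⟩ := F₁.exists_base h1
    obtain ⟨i, hi⟩ := l₂ _ k₁
    refine ⟨F₂.extend (C y) ?_, (l₁.trans l₂).trans (F₂.extend_le _ _), F₂.extend_has _ _⟩
    intro A _ _ a ha h
    have h2 := ha.mul none (some i) (some o) (by
      simp only [Option.elim]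
      rw [ho, hi, aeval_C, aeval_C, aeval_C, ← map_mul, mul_comm, hxy])
    have h3 := h i
    have h4 := h o
    rw [hi, aeval_C] at h3
    rw [ho, aeval_C, map_one] at h4
    rw [h3, h4] at h2
    rw [aeval_C]
    have h5 : algebraMap R A y * algebraMap R A x = 1 := by
      rw [← map_mul, mul_comm, hxy, map_one]
    have h6 : algebraMap R A x * algebraMap R A y = 1 := by rw [mul_comm]; exact h5
    calc a none = a none * (algebraMap R A x * algebraMap R A y) := by rw [h6, mul_one]
      _ = (a none * algebraMap R A x) * algebraMap R A y := by ring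
      _ = algebraMap R A y := by rw [h2, one_mul]

lemma exists_poly (h1 : (1 : R) ∈ G) (hG : ∀ c, Gen G c) (q : MvPolynomial (Fin r) R) :
    ∀ F : Fam G b, ∃ F' : Fam G b, F.Le F' ∧ F'.Has q := by
  induction q using MvPolynomial.induction_on with
  | C c => exact exists_const h1 c (hG c)
  | add p q hp hq =>
    intro F
    obtain ⟨F₁, l₁, k₁⟩ := hp F
    obtain ⟨F₂, l₂, k₂⟩ := hq F₁
    obtain ⟨F₃, l₃, k₃⟩ := F₂.exists_add (l₂ _ k₁) k₂
    exact ⟨F₃, (l₁.trans l₂).trans l₃, k₃⟩
  | mul_X p t hp =>
    intro F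
    obtain ⟨F₁, l₁, k₁⟩ := hp F
    obtain ⟨F₂, l₂, k₂⟩ := F₁.exists_mul k₁ ⟨F₁.x t, F₁.hx t⟩
    exact ⟨F₂, l₁.trans l₂, k₂⟩

lemma exists_list (h1 : (1 : R) ∈ G) (hG : ∀ c, Gen G c) (S : Finset (MvPolynomial (Fin r) R)) :
    ∀ F : Fam G b, ∃ F' : Fam G b, F.Le F' ∧ ∀ q ∈ S, F'.Has q := by
  classical
  induction S using Finset.induction_on with
  | empty => exact fun F => ⟨F, fun _ h => h, by simp⟩
  | insert q S _ ih =>
    intro F
    obtain ⟨F₁, l₁, k₁⟩ := ih F
    obtain ⟨F₂, l₂, k₂⟩ := exists_poly h1 hG q F₁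
    refine ⟨F₂, l₁.trans l₂, fun s hs => ?_⟩
    rcases Finset.mem_insert.1 hs with rfl | hs
    · exact k₂
    · exact l₂ _ (k₁ s hs)

lemma exists_card (h1 : (1 : R) ∈ G) (n : ℕ) :
    ∀ F : Fam G b, ∃ F' : Fam G b, F.Le F' ∧ n ≤ Fintype.card F'.ι := by
  induction n with
  | zero => exact fun F => ⟨F, fun _ h => h, Nat.zero_le _⟩
  | succ n ih =>
    intro F
    obtain ⟨F₁, l₁, k₁⟩ := ih F
    have hq : ∀ (A : Type) [CommRing A] [Algebra R A] (a : Option F₁.ι → A),
        Sat G (fun i : Option F₁.ι => aeval b (i.elim (C 1) F₁.p)) a →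
        (∀ i, a (some i) = aeval (fun t => a (some (F₁.x t))) (F₁.p i)) →
        a none = aeval (fun t => a (some (F₁.x t))) (C 1 : MvPolynomial (Fin r) R) := by
      intro A _ _ a ha _
      have := ha.base none 1 h1 (by simp)
      rw [this, aeval_C]
    refine ⟨F₁.extend (C 1) hq, l₁.trans (F₁.extend_le _ _), ?_⟩
    have : Fintype.card (Option F₁.ι) = Fintype.card F₁.ι + 1 := Fintype.card_option
    change n + 1 ≤ Fintype.card (Option F₁.ι)
    omega

variable (G b) in
/-- the variables -/
noncomputable def vars : Fam G b where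
  ι := Fin r
  fin := inferInstance
  p := X
  x := id
  hx _ := rfl
  closed := by
    intro A _ _ a _ i
    rw [aeval_X]
    rfl

end Fam

/-- **Elementary presentations.** Let `R` be noetherian and let all elements of `R` be obtained from the
elements of `G` (with `1 ∈ G`) by additions, subtractions, multiplications and divisions.  Every finitely
generated algebra over `R` has a presentation by elementary equations, in an arbitrarily large number of
variables. -/
theorem exists_elementary_ge [IsNoetherianRing R] (h1 : (1 : R) ∈ G) (hG : ∀ c, Gen G c)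
    (B : Type) [CommRing B] [Algebra R B] [Algebra.FiniteType R B] (N₀ : ℕ) :
    ∃ (N : ℕ) (m : ℕ) (g : Fin (m + 1) → MvPolynomial (Fin N) R), N₀ ≤ N ∧
      (∀ k, IsElementary G (g k)) ∧
      Nonempty ((MvPolynomial (Fin N) R ⧸ Ideal.span (Set.range g)) ≃ₐ[R] B) := by
  classical
  obtain ⟨r, φ, hφ⟩ := Algebra.FiniteType.iff_quotient_mvPolynomial''.1
    (inferInstance : Algebra.FiniteType R B)
  let b : Fin r → B := fun t => φ (X t)
  have hb : aeval b = φ := by
    apply MvPolynomial.algHom_ext
    intro i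
    rw [aeval_X]
  obtain ⟨S, hS⟩ := (IsNoetherian.noetherian (RingHom.ker (aeval b : MvPolynomial (Fin r) R →ₐ[R] B)))
  obtain ⟨F₁, l₁, k₁⟩ := Fam.exists_list h1 hG S (Fam.vars G b)
  obtain ⟨F₂, l₂, ⟨z₂, hz₂⟩⟩ := F₁.exists_zero
  obtain ⟨F, l₃, hN⟩ := Fam.exists_card h1 N₀ F₂
  obtain ⟨z, hz⟩ := l₃ _ ⟨z₂, hz₂⟩
  have hF : ∀ q ∈ S, F.Has q := fun q hq => l₃ _ (l₂ _ (k₁ q hq))
  let v : F.ι → B := fun i => aeval b (F.p i)
  let E : Set (MvPolynomial F.ι R) := {f | IsElementary G f ∧ aeval v f = 0}
  -- the kernel of the evaluation is generated by the elementary relations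
  have hsurj : Function.Surjective (aeval v : MvPolynomial F.ι R →ₐ[R] B) := by
    intro y
    obtain ⟨q, rfl⟩ := hφ y
    refine ⟨rename F.x q, ?_⟩
    rw [aeval_rename, ← hb]
    congr 1
    congr 1
    funext t
    change aeval b (F.p (F.x t)) = b t
    rw [F.hx, aeval_X]
  have hker : RingHom.ker (aeval v : MvPolynomial F.ι R →ₐ[R] B) = Ideal.span E := by
    apply le_antisymm
    · intro f hf
      let Q := MvPolynomial F.ι R ⧸ Ideal.span E
      let a : F.ι → Q := fun i => Ideal.Quotient.mk _ (X i)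
      have ha0 : ∀ f : MvPolynomial F.ι R, (Ideal.Quotient.mk (Ideal.span E) f) = aeval a f := by
        intro f
        have : (Ideal.Quotient.mkₐ R (Ideal.span E)) = aeval a := by
          apply MvPolynomial.algHom_ext
          intro i
          rw [aeval_X]
          rfl
        rw [← this]
        rfl
      have hsat : Sat G v a := by
        refine ⟨fun i c hc h => ?_, fun i j k h => ?_, fun i j k h => ?_⟩
        · have h2 : (X i - C c : MvPolynomial F.ι R) ∈ E :=
            ⟨Or.inl ⟨i, c, hc, rfl⟩, by rw [map_sub, aeval_X, aeval_C, h, sub_self]⟩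
          have h3 := Ideal.Quotient.eq_zero_iff_mem.2 (Ideal.subset_span h2)
          rw [ha0, map_sub, aeval_X, aeval_C] at h3
          exact sub_eq_zero.1 h3
        · have h2 : (X i + X j - X k : MvPolynomial F.ι R) ∈ E :=
            ⟨Or.inr (Or.inl ⟨i, j, k, rfl⟩), by
              rw [map_sub, map_add, aeval_X, aeval_X, aeval_X, h, sub_self]⟩
          have h3 := Ideal.Quotient.eq_zero_iff_mem.2 (Ideal.subset_span h2)
          rw [ha0, map_sub, map_add, aeval_X, aeval_X, aeval_X] at h3
          exact sub_eq_zero.1 h3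
        · have h2 : (X i * X j - X k : MvPolynomial F.ι R) ∈ E :=
            ⟨Or.inr (Or.inr ⟨i, j, k, rfl⟩), by
              rw [map_sub, map_mul, aeval_X, aeval_X, aeval_X, h, sub_self]⟩
          have h3 := Ideal.Quotient.eq_zero_iff_mem.2 (Ideal.subset_span h2)
          rw [ha0, map_sub, map_mul, aeval_X, aeval_X, aeval_X] at h3
          exact sub_eq_zero.1 h3
      have hcl := F.closed Q a hsat
      have hz0 : ∀ q ∈ S, aeval (a ∘ F.x) q = 0 := by
        intro q hq
        obtain ⟨i, hi⟩ := hF q hq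
        have h2 : v i = 0 := by
          have : q ∈ RingHom.ker (aeval b : MvPolynomial (Fin r) R →ₐ[R] B) := by
            rw [← hS]
            exact Submodule.subset_span hq
          change aeval b (F.p i) = 0
          rw [hi]
          exact this
        have h3 := hsat.add i i i (by rw [h2, add_zero])
        have h4 : a i = 0 := left_eq_add.1 h3.symm
        rw [← hi, ← hcl i, h4]
      have hz1 : ∀ q ∈ RingHom.ker (aeval b : MvPolynomial (Fin r) R →ₐ[R] B),
          aeval (a ∘ F.x) q = 0 := by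
        intro q hq
        have h2 : Ideal.span (S : Set (MvPolynomial (Fin r) R)) ≤
            RingHom.ker (aeval (a ∘ F.x) : MvPolynomial (Fin r) R →ₐ[R] Q) :=
          Ideal.span_le.2 hz0
        have h3 : q ∈ Ideal.span (S : Set (MvPolynomial (Fin r) R)) := by
          have h4 : (Submodule.span (MvPolynomial (Fin r) R) (S : Set (MvPolynomial (Fin r) R))) =
            RingHom.ker (aeval b : MvPolynomial (Fin r) R →ₐ[R] B) := hS
          change q ∈ Submodule.span _ _
          rw [h4]
          exact hq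
        exact h2 h3
      rw [← Ideal.Quotient.eq_zero_iff_mem, ha0]
      have h5 : aeval a f = aeval (a ∘ F.x) (bind₁ F.p f) := by
        rw [aeval_bind₁]
        congr 2
        funext i
        exact hcl i
      rw [h5]
      apply hz1
      change aeval b (bind₁ F.p f) = 0
      rw [aeval_bind₁]
      exact hf
    · rw [Ideal.span_le]
      exact fun f hf => hf.2
  -- finitely many of them
  have hfg : (Submodule.span (MvPolynomial F.ι R) E).FG := IsNoetherian.noetherian _
  obtain ⟨T, hT, hTE⟩ := (Submodule.fg_span_iff_fg_span_finset_subset E).1 hfg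
  have hzz : v z = 0 := by
    change aeval b (F.p z) = 0
    rw [hz, map_zero]
  have hz1 : (X z + X z - X z : MvPolynomial F.ι R) ∈ E :=
    ⟨Or.inr (Or.inl ⟨z, z, z, rfl⟩), by rw [map_sub, map_add, aeval_X, hzz]; simp⟩
  let T' : Finset (MvPolynomial F.ι R) := insert (X z + X z - X z) T
  have hT' : (T' : Set (MvPolynomial F.ι R)) ⊆ E := by
    intro f hf
    rcases Finset.mem_insert.1 (Finset.mem_coe.1 hf) with rfl | hf
    · exact hz1
    · exact hT hf
  have hspan : Ideal.span (T' : Set (MvPolynomial F.ι R)) = Ideal.span E := by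
    apply le_antisymm
    · exact Ideal.span_mono hT'
    · have h2 : Ideal.span E = Ideal.span (T : Set (MvPolynomial F.ι R)) := hTE
      rw [h2]
      exact Ideal.span_mono (by
        intro f hf
        exact Finset.mem_coe.2 (Finset.mem_insert_of_mem (Finset.mem_coe.1 hf)))
  obtain ⟨m, hm⟩ : ∃ m, T'.card = m + 1 :=
    Nat.exists_eq_succ_of_ne_zero (Finset.card_ne_zero_of_mem (Finset.mem_insert_self _ _))
  let eσ : F.ι ≃ Fin (Fintype.card F.ι) := Fintype.equivFin _
  let eκ : Fin (m + 1) ≃ T' := (T'.equivFinOfCardEq hm).symm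
  let g : Fin (m + 1) → MvPolynomial (Fin (Fintype.card F.ι)) R := fun k => rename eσ (eκ k : _)
  refine ⟨_, m, g, hN, fun k => ?_, ⟨?_⟩⟩
  · have h2 : (eκ k : MvPolynomial F.ι R) ∈ E := hT' (Finset.mem_coe.2 (eκ k).2)
    rcases h2.1 with ⟨i, c, hc, h⟩ | ⟨i, j, l, h⟩ | ⟨i, j, l, h⟩
    · left
      refine ⟨eσ i, c, hc, ?_⟩
      change rename eσ (eκ k : MvPolynomial F.ι R) = _
      rw [h, map_sub, rename_X, rename_C]
    · right; left
      refine ⟨eσ i, eσ j, eσ l, ?_⟩
      change rename eσ (eκ k : MvPolynomial F.ι R) = _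
      rw [h, map_sub, map_add, rename_X, rename_X, rename_X]
    · right; right
      refine ⟨eσ i, eσ j, eσ l, ?_⟩
      change rename eσ (eκ k : MvPolynomial F.ι R) = _
      rw [h, map_sub, map_mul, rename_X, rename_X, rename_X]
  · have h2 : Ideal.span (Set.range g) = (Ideal.span E).map
        (renameEquiv R eσ : MvPolynomial F.ι R →+* MvPolynomial (Fin (Fintype.card F.ι)) R) := by
      rw [← hspan, Ideal.map_span]
      congr 1
      ext x
      constructor
      · rintro ⟨k, rfl⟩
        exact ⟨(eκ k : MvPolynomial F.ι R), Finset.mem_coe.2 (eκ k).2, rfl⟩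
      · rintro ⟨f, hf, rfl⟩
        refine ⟨eκ.symm ⟨f, Finset.mem_coe.1 hf⟩, ?_⟩
        change rename eσ ((eκ (eκ.symm ⟨f, Finset.mem_coe.1 hf⟩) : T') : MvPolynomial F.ι R) = _
        rw [Equiv.apply_symm_apply]
        rfl
    have e1 := Ideal.quotientEquivAlg (Ideal.span E) (Ideal.span (Set.range g)) (renameEquiv R eσ) h2
    exact e1.symm.trans ((Ideal.quotientEquivAlgOfEq R hker.symm).trans
      (Ideal.quotientKerAlgEquivOfSurjective hsurj))

/-- All elements of a field are obtained from the elements of a set which generates the field. -/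
theorem gen_of_closure (k : Type) [Field k] (G : Set k) (hG : Subfield.closure G = ⊤) (c : k) :
    Gen (insert 1 G) c := by
  have hc : c ∈ Subfield.closure G := by
    rw [hG]
    exact Subfield.mem_top c
  induction hc using Subfield.closure_induction with
  | mem x hx => exact .base x (Set.mem_insert_of_mem _ hx)
  | one => exact .base 1 (Set.mem_insert _ _)
  | add x y _ _ hx hy => exact .add x y hx hy
  | neg x _ hx => exact .neg x hx
  | inv x _ hx =>
    by_cases h : x = 0
    · rw [h, inv_zero]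
      rwa [h] at hx
    · exact .inv x _ (mul_inv_cancel₀ h) hx
  | mul x y _ _ hx hy => exact .mul x y hx hy

end

end Pool.Agent.U583.ON
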