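import Mathlib
import Pool.Agent.Y116.UV.Defs
import Pool.Agent.R904.CU.Bundle
import Pool.Agent.U583.ON.Basic

/-!
# Cohomology with compact support and the cubic hypersurfaces `∑ y_l g_l(x) = 1`: definitions

`𝒜` is an abelian category with a Tate twist, for example the category of the finite-dimensional
continuous `ℓ`-adic representations of the Galois group of a field `k`; `H n X` is the cohomology with
compact support in degree `n` of the separated scheme `X` of finite type over `R`.
-/

set_option autoImplicit false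

open CategoryTheory CategoryTheory.Limits AlgebraicGeometry MvPolynomial
open Pool.Agent.Y116.UV Pool.Agent.R904.CU

namespace Pool.Agent.U583.ON

universe v u

/-- The hypersurface `∑ y_l g_l(x) = 1` in the affine space with the coordinates `x_1, …, x_N` and
`y_0, …, y_m`, for polynomials `g_0, …, g_m` in `x`. If the `g_l` are of degree at most two, it is a
smooth cubic hypersurface. -/
noncomputable def cubS {R : Type} [CommRing R] {N m : ℕ} (g : Fin (m + 1) → MvPolynomial (Fin N) R) :
    Sch R := aff R (Ring1 g)

section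

variable {𝒜 : Type u} [Category.{v} 𝒜] [Abelian 𝒜]

/-- The twist `A(-m)`, where `T` is the functor `A ↦ A(-1)`. -/
def tpow (T : 𝒜 ⥤ 𝒜) (m : ℕ) (A : 𝒜) : 𝒜 := T.obj^[m] A

/-- `A` is a subquotient of `B`. -/
def IsSubquotient (A B : 𝒜) : Prop :=
  ∃ (S : 𝒜) (i : S ⟶ B) (p : S ⟶ A), Mono i ∧ Epi p

/-- The sequence `... → U n → X n → Z n → U (n + 1) → ...` is exact for suitable morphisms. -/
def IsLongExact (U X Z : ℤ → 𝒜) : Prop :=
  ∃ (a : ∀ n, U n ⟶ X n) (b : ∀ n, X n ⟶ Z n) (d : ∀ n, Z n ⟶ U (n + 1)),
    (∀ n, ∃ h : a n ≫ b n = 0, (ShortComplex.mk _ _ h).Exact) ∧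
    (∀ n, ∃ h : b n ≫ d n = 0, (ShortComplex.mk _ _ h).Exact) ∧
    ∀ n, ∃ h : d n ≫ a (n + 1) = 0, (ShortComplex.mk _ _ h).Exact

variable (𝒜) in
/-- The properties of the cohomology with compact support `H n X = H^n_c(X)` which are used, for
separated schemes `X` of finite type over `R`. -/
structure Coh (R : Type) [CommRing R] where
  /-- the cohomology with compact support in degree `n` -/
  H : ℤ → Sch R → 𝒜
  /-- the Tate twist `A ↦ A(-1)` -/
  T : 𝒜 ⥤ 𝒜
  /-- it is an equivalence of categories -/
  twist : T.IsEquivalence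
  /-- isomorphic schemes have isomorphic cohomology -/
  iso : ∀ (n : ℤ) (X Y : Sch R), FT True X → Nonempty (X ≅ Y) → Nonempty (H n X ≅ H n Y)
  /-- the exact sequence of a closed subscheme `Z` of `X` with open complement `U` -/
  sequence : ∀ {Z X U : Sch R} (i : Z ⟶ X) (j : U ⟶ X), FT True X → IsTriple i j →
    IsLongExact (fun n => H n U) (fun n => H n X) (fun n => H n Z)
  /-- the cohomology with compact support of the affine space of dimension `N` is zero in the degrees
  different from `2 N` -/
  space : ∀ (n : ℤ) (N : ℕ), n ≠ 2 * N → IsZero (H n (aff R (MvPolynomial (Fin N) R)))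
  /-- affine bundles of rank `m` -/
  bundle : ∀ (n : ℤ) (m : ℕ) {E X : Sch R} (π : E ⟶ X), FT True E → FT True X →
    IsAffineBundle m π.left → Nonempty (H (n + 2 * m) E ≅ tpow T m (H n X))

/-- The scheme `X` has an affine bundle whose total space is affine; this is true for the quasi-projective
schemes (Jouanolou). -/
def HasTorsor {R : Type} [CommRing R] (X : Sch R) : Prop :=
  ∃ (r : ℕ) (B : CommRingCat.{0}) (_ : Algebra R B) (_ : Algebra.FiniteType R B)
    (π : aff R B ⟶ X), IsAffineBundle r π.left

/-- The weights: `gr w` is the functor `A ↦ gr^W_w A`. The class `C` is like the class of the smooth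
projective schemes: its members are separated and of finite type and have an affine bundle whose total
space is affine, `H^n(X)` is pure of weight `n` for its members `X`, and all `gr^W_w H^n_c(Y)`, `Y`
separated of finite type, are subquotients of `H^w(X)` for some members `X` (Deligne, de Jong). -/
structure Weights {R : Type} [CommRing R] (H : Coh 𝒜 R) (C : Sch R → Prop) where
  /-- the graded pieces of the weight filtration -/
  gr : ℤ → 𝒜 ⥤ 𝒜
  twist : ∀ (w : ℤ) (A : 𝒜), Nonempty ((gr (w + 2)).obj (H.T.obj A) ≅ H.T.obj ((gr w).obj A))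
  ft : ∀ X, C X → FT True X
  jouanolou : ∀ X, C X → HasTorsor X
  pure : ∀ X, C X → ∀ n : ℤ, Nonempty ((gr n).obj (H.H n X) ≅ H.H n X)
  deligne : ∀ Y, FT True Y → ∀ w n : ℤ, ∃ X, C X ∧ IsSubquotient ((gr w).obj (H.H n Y)) (H.H w X)

/-- The object `A` is semisimple: every subobject has a complement. -/
def IsSemisimple (A : 𝒜) : Prop := ∀ (B : 𝒜) (i : B ⟶ A), Mono i → ∃ r : A ⟶ B, i ≫ r = 𝟙 B

/-- The property `P` is stable under subquotients (in particular under isomorphisms), and true for `A`
if and only if it is true for the Tate twist `A(-1)`. -/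
structure IsStable (T : 𝒜 ⥤ 𝒜) (P : 𝒜 → Prop) : Prop where
  subquotient : ∀ A B : 𝒜, IsSubquotient A B → P B → P A
  twist : ∀ A : 𝒜, P A ↔ P (T.obj A)

end

end Pool.Agent.U583.ON
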