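import Pool.Agent.U583.ON.SepMain

/-!
# Effective geometric origin: constituents of the cohomology of proper smooth schemes
-/

set_option autoImplicit false

open CategoryTheory CategoryTheory.Limits AlgebraicGeometry MvPolynomial Opposite
open Pool.Agent.Y116.UV Pool.Agent.R904.CU Pool.Agent.U583.MW

namespace Pool.Agent.U583.ON

universe v u

/-- The scheme `X` over `F` is proper and smooth. -/
def ProperSmooth {F : Type} [Field F] (X : Sch F) : Prop := IsProper X.hom ∧ Smooth X.hom

variable {𝒜 : Type u} [Category.{v} 𝒜] [Abelian 𝒜]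

/-- `A` is effective: it is a subquotient of the cohomology of a proper smooth scheme over `F`. -/
def Effective {F : Type} [Field F] (H : Coh 𝒜 F) (A : 𝒜) : Prop :=
  ∃ (X : Sch F) (i : ℤ), ProperSmooth X ∧ IsSubquotient A (H.H i X)

/-- Every simple constituent of the cohomology with compact support of a separated scheme of finite type
over `F` is effective. This is known for the `ℓ`-adic cohomology, by resolution of singularities and the
weight spectral sequence (Deligne). -/
def WeightSpectral {F : Type} [Field F] (H : Coh 𝒜 F) : Prop :=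
  ∀ (Y : Sch F) (n : ℤ) (A : 𝒜), FT True Y → Simple A → IsSubquotient A (H.H n Y) → Effective H A

lemma ProperSmooth.ft {F : Type} [Field F] {X : Sch F} (h : ProperSmooth X) : FT True X := by
  have h1 := h.1
  exact ⟨inferInstance, inferInstance, fun _ => inferInstance⟩

lemma closure_rat : Subfield.closure (∅ : Set ℚ) = ⊤ := by
  rw [eq_top_iff]
  intro x _
  have h := SubfieldClass.ratCast_mem (Subfield.closure (∅ : Set ℚ)) x
  rwa [Rat.cast_id] at h

lemma bundle_spec (B : Type) [CommRing B] :
    IsAffineBundle 1 (Spec.map (CommRingCat.ofHom (C : B →+* MvPolynomial (Fin 1) B))) := by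
  intro x
  refine ⟨CommRingCat.of B, 𝟙 _, Fin 1, inferInstance, 𝟙 _, rfl, inferInstance, ⟨x, rfl⟩, ?_⟩
  exact IsPullback.of_horiz_isIso ⟨by rw [Category.id_comp, Category.comp_id]⟩

lemma bundle_poly (F B : Type) [Field F] [CommRing B] [Algebra F B] :
    IsAffineBundle 1 (affMap (IsScalarTower.toAlgHom F B (MvPolynomial (Fin 1) B))).left :=
  bundle_spec B

/-- The twist `A(-1)` of an effective object is effective. -/
theorem Effective.twist {F : Type} [Field F] {H : Coh 𝒜 F} (hadd : IsAdditive H)
    (hw : WeightSpectral H) {A : 𝒜} (hA : Simple A) (h : Effective H A) :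
    Effective H (H.T.obj A) := by
  have := H.twist
  obtain ⟨X, i, hX, hs⟩ := h
  obtain ⟨B, _, _, _, hB⟩ := exists_affine.{v, u} X hX.ft
  have h1 := hB H hadd i A hA hs
  have hft : Algebra.FiniteType F (MvPolynomial (Fin 1) B) :=
    Algebra.FiniteType.trans (S := B) inferInstance inferInstance
  obtain ⟨e⟩ := H.bundle i 1 (affMap (IsScalarTower.toAlgHom F B (MvPolynomial (Fin 1) B)))
    (ft_aff True) (ft_aff True) (bundle_poly F B)
  exact hw _ _ _ (ft_aff True) (simple_obj H.T A) (((h1.tpow H.T 1)).iso_right ⟨e.symm⟩)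

/-- The effective simple objects over a number field and the cubic hypersurfaces without
coefficients. -/
theorem effective_iff {F : Type} [Field F] [NumberField F] (H : Coh 𝒜 F) (hadd : IsAdditive H)
    (hw : WeightSpectral H) (A : 𝒜) (hA : Simple A) :
    (Effective H A ↔ ∃ (Y : Sch F) (n : ℤ), FT True Y ∧ IsSubquotient A (H.H n Y)) ∧
    (Effective H A ↔ ∃ (N m : ℕ) (g : Fin (m + 1) → MvPolynomial (Fin N) ℚ),
      (∀ l, IsElementary {1} (g l)) ∧ ∃ j : ℤ, IsSubquotient (tpow H.T m A) (H.H j (cubF F g))) := by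
  refine ⟨⟨?_, ?_⟩, ⟨?_, ?_⟩⟩
  · rintro ⟨X, i, hX, hs⟩
    exact ⟨X, i, hX.ft, hs⟩
  · rintro ⟨Y, n, hY, hs⟩
    exact hw Y n A hY hA hs
  · rintro ⟨X, i, hX, hs⟩
    obtain ⟨N, m, g, hg, h⟩ := exists_cubF.{v, u} closure_rat X hX.ft i
    refine ⟨N, m, g, fun l => ?_, _, h H hadd i le_rfl A hA hs⟩
    have := hg l
    rwa [insert_empty_eq] at this
  · rintro ⟨N, m, g, -, j, hs⟩
    obtain ⟨Y, hY, h⟩ := of_cubF g hs
    exact hw Y _ A hY hA h

end Pool.Agent.U583.ON
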