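import Pool.Agent.U583.ON.Defs
import Pool.Agent.R904.CU.Geom
import Pool.Agent.Y116.UV.Main
import Pool.Agent.U583.MW.Geo

/-!
# The cohomology of a projective variety is that of a smooth affine cubic hypersurface
-/

set_option autoImplicit false

open CategoryTheory CategoryTheory.Limits AlgebraicGeometry MvPolynomial
open Pool.Agent.Y116.UV Pool.Agent.R904.CU Pool.Agent.U583.MW

namespace Pool.Agent.U583.ON

universe v u

section geometry

variable {R : Type} [CommRing R] {N m : ℕ} (g : Fin (m + 1) → MvPolynomial (Fin N) R)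

/-- the complement of `g = 0` in the affine space -/
noncomputable def cmp : Sch R := opn (aff R (MvPolynomial (Fin N) R)) (openU g)

lemma prj_comm : proj g ≫ ((openU g).ι ≫
    Spec.map (CommRingCat.ofHom (algebraMap R (MvPolynomial (Fin N) R)))) =
    Spec.map (CommRingCat.ofHom (algebraMap R (Ring1 g))) := by
  rw [← Category.assoc, proj_ι, proj0, ← Spec.map_comp, ← CommRingCat.ofHom_comp]

/-- the projection of the hypersurface -/
noncomputable def prj : cubS g ⟶ cmp g := Over.homMk (proj g) (prj_comm g)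

lemma isAffineBundle_prj : IsAffineBundle m (prj g).left := by
  have h := isAffineBundle_proj g
  rw [Fintype.card_fin, Nat.add_sub_cancel] at h
  exact h

lemma triple_cmp : IsTriple (affMap (Ideal.Quotient.mkₐ R (Ideal.span (Set.range g))))
    (opnMap (aff R (MvPolynomial (Fin N) R)) (openU g)) where
  closed := closed_affMap _ (Ideal.Quotient.mkₐ_surjective R _)
  opened := inferInstanceAs (IsOpenImmersion (openU g).ι)
  compl := range_closedZ g

lemma ft_cubS : FT True (cubS g) := by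
  have : Algebra.FiniteType R (MvPolynomial (Fin (m + 1)) (MvPolynomial (Fin N) R)) :=
    Algebra.FiniteType.trans (S := MvPolynomial (Fin N) R) inferInstance inferInstance
  have : Algebra.FiniteType R (Ring1 g) := inferInstance
  exact ft_aff True

lemma ft_cmp [IsNoetherianRing R] : FT True (cmp g) :=
  ft_opened (sep := True) (X := aff R (MvPolynomial (Fin N) R)) (U := cmp g)
    (opnMap (aff R (MvPolynomial (Fin N) R)) (openU g)) (ft_aff True) (triple_cmp g).opened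

end geometry

section abelian

variable {𝒜 : Type u} [Category.{v} 𝒜] [Abelian 𝒜]

lemma iso_of_isLongExact {U X Z : ℤ → 𝒜} (h : IsLongExact U X Z) (n : ℤ) (h0 : IsZero (X n))
    (h1 : IsZero (X (n + 1))) : Nonempty (Z n ≅ U (n + 1)) := by
  obtain ⟨a, b, d, -, h2, h3⟩ := h
  obtain ⟨w2, e2⟩ := h2 n
  obtain ⟨w3, e3⟩ := h3 n
  have : Mono (d n) := e2.mono_g (h0.eq_of_src _ _)
  have : Epi (d n) := e3.epi_f (h1.eq_of_tgt _ _)
  have := isIso_of_mono_of_epi (d n)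
  exact ⟨asIso (d n)⟩

lemma tpow_iso (T : 𝒜 ⥤ 𝒜) (m : ℕ) {A B : 𝒜} (e : Nonempty (A ≅ B)) :
    Nonempty (tpow T m A ≅ tpow T m B) := by
  induction m with
  | zero => exact e
  | succ m ih =>
    obtain ⟨f⟩ := ih
    unfold tpow at *
    rw [Function.iterate_succ_apply', Function.iterate_succ_apply']
    exact ⟨T.mapIso f⟩

lemma tpow_add (T : 𝒜 ⥤ 𝒜) (m r : ℕ) (A : 𝒜) : tpow T (m + r) A = tpow T m (tpow T r A) :=
  Function.iterate_add_apply _ _ _ _

lemma IsSubquotient.of_iso {A B : 𝒜} (e : Nonempty (A ≅ B)) : IsSubquotient A B := by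
  obtain ⟨e⟩ := e
  exact ⟨A, e.hom, 𝟙 A, inferInstance, inferInstance⟩

lemma IsSemisimple.sub {A B : 𝒜} (h : IsSemisimple B) (j : A ⟶ B) (hj : Mono j) :
    IsSemisimple A := by
  intro D i hi
  obtain ⟨r, hr⟩ := h D (i ≫ j) (mono_comp i j)
  exact ⟨j ≫ r, by rw [← Category.assoc]; exact hr⟩

lemma IsSemisimple.quot {A B : 𝒜} (h : IsSemisimple B) (p : B ⟶ A) (hp : Epi p) :
    IsSemisimple A := by
  obtain ⟨ρ, hρ⟩ := h (kernel p) (kernel.ι p) inferInstance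
  have hk : kernel.ι p ≫ (𝟙 B - ρ ≫ kernel.ι p) = 0 := by
    rw [Preadditive.comp_sub, Category.comp_id, ← Category.assoc, hρ, Category.id_comp, sub_self]
  have hcok : ∃ s : A ⟶ B, p ≫ s = 𝟙 B - ρ ≫ kernel.ι p := by
    have hS : (ShortComplex.mk (kernel.ι p) p (kernel.condition p)).Exact :=
      ShortComplex.exact_of_f_is_kernel _ (kernelIsKernel p)
    have : Epi (ShortComplex.mk (kernel.ι p) p (kernel.condition p)).g := hp
    exact ⟨hS.desc _ hk, hS.g_desc _ hk⟩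
  obtain ⟨s, hs⟩ := hcok
  have h1 : s ≫ p = 𝟙 A := by
    rw [← cancel_epi p, ← Category.assoc, hs, Preadditive.sub_comp, Category.assoc,
      kernel.condition, comp_zero, sub_zero, Category.id_comp, Category.comp_id]
  have hm : Mono s := by
    have : IsSplitMono s := ⟨⟨⟨p, h1⟩⟩⟩
    infer_instance
  exact h.sub s hm

lemma IsSemisimple.subquotient {A B : 𝒜} (h : IsSubquotient A B) (hB : IsSemisimple B) :
    IsSemisimple A := by
  obtain ⟨S, i, p, hi, hp⟩ := h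
  exact (hB.sub i hi).quot p hp

lemma IsSemisimple.map {A : 𝒜} (F : 𝒜 ⥤ 𝒜) [F.IsEquivalence] (h : IsSemisimple A) :
    IsSemisimple (F.obj A) := by
  intro B i hi
  let e := F.objObjPreimageIso B
  have hm1 : Mono (e.hom ≫ i) := mono_comp _ _
  let i' : F.objPreimage B ⟶ A := F.preimage (e.hom ≫ i)
  have h1 : F.map i' = e.hom ≫ i := F.map_preimage _
  have hm : Mono i' := by
    apply F.mono_of_mono_map
    rw [h1]
    exact hm1
  obtain ⟨r', hr'⟩ := h _ i' hm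
  refine ⟨F.map r' ≫ e.hom, ?_⟩
  rw [← cancel_epi e.hom, ← Category.assoc, ← Category.assoc, ← h1, ← F.map_comp, hr', F.map_id,
    Category.id_comp, Category.comp_id]

lemma IsSemisimple.of_map {A : 𝒜} (F : 𝒜 ⥤ 𝒜) [F.IsEquivalence] (h : IsSemisimple (F.obj A)) :
    IsSemisimple A := by
  intro B i hi
  obtain ⟨r, hr⟩ := h _ (F.map i) inferInstance
  refine ⟨F.preimage r, F.map_injective ?_⟩
  rw [F.map_comp, F.map_preimage, hr, F.map_id]

end abelian

section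

variable {R : Type} [CommRing R] [IsNoetherianRing R] {G : Set R}

/-- The cohomology of an affine scheme is that of a cubic hypersurface. -/
theorem nose_affine (h1 : (1 : R) ∈ G) (hG : ∀ c, Gen G c) (B : Type) [CommRing B] [Algebra R B]
    [Algebra.FiniteType R B] (n₀ : ℤ) :
    ∃ (N m : ℕ) (g : Fin (m + 1) → MvPolynomial (Fin N) R), (∀ l, IsElementary G (g l)) ∧
      ∀ {𝒜 : Type u} [Category.{v} 𝒜] [Abelian 𝒜] (H : Coh 𝒜 R) (n : ℤ), n ≤ n₀ →
        Nonempty (H.H (n + 1 + 2 * m) (cubS g) ≅ tpow H.T m (H.H n (aff R B))) := by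
  obtain ⟨N, m, g, hN, hg, ⟨e⟩⟩ := exists_elementary_ge h1 hG B (n₀.toNat + 1)
  refine ⟨N, m, g, hg, fun {𝒜} _ _ H n hn => ?_⟩
  have hs := H.sequence _ _ (ft_aff True) (triple_cmp g)
  obtain ⟨e1⟩ := iso_of_isLongExact hs n (H.space n N (by omega))
    (H.space (n + 1) N (by omega))
  obtain ⟨e2⟩ := H.bundle (n + 1) m (prj g) (ft_cubS g) (ft_cmp g) (isAffineBundle_prj g)
  obtain ⟨e3⟩ := H.iso n _ _ (ft_aff True) ⟨(affIso e).symm⟩
  obtain ⟨e4⟩ := tpow_iso H.T m ⟨e1.symm ≪≫ e3⟩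
  exact ⟨e2 ≪≫ e4⟩

/-- The cohomology of a quasi-projective scheme is that of a cubic hypersurface. -/
theorem nose (h1 : (1 : R) ∈ G) (hG : ∀ c, Gen G c) (X : Sch R) (hX : FT True X)
    (hT : HasTorsor X) (n₀ : ℤ) :
    ∃ (N m s : ℕ) (g : Fin (m + 1) → MvPolynomial (Fin N) R), (∀ l, IsElementary G (g l)) ∧
      ∀ {𝒜 : Type u} [Category.{v} 𝒜] [Abelian 𝒜] (H : Coh 𝒜 R) (n : ℤ), n ≤ n₀ →
        Nonempty (H.H (n + 1 + 2 * s) (cubS g) ≅ tpow H.T s (H.H n X)) := by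
  obtain ⟨r, B, _, _, π, hπ⟩ := hT
  obtain ⟨N, m, g, hg, hn⟩ := nose_affine.{v, u} h1 hG B (n₀ + 2 * r)
  refine ⟨N, m, m + r, g, hg, fun {𝒜} _ _ H n hn0 => ?_⟩
  obtain ⟨e1⟩ := hn H (n + 2 * r) (by omega)
  have e2 := tpow_iso H.T m (H.bundle n r π (ft_aff True) hX hπ)
  obtain ⟨e2⟩ := e2
  rw [show n + 2 * (r : ℤ) + 1 + 2 * m = n + 1 + 2 * ((m + r : ℕ) : ℤ) by push_cast; ring] at e1
  rw [tpow_add]
  exact ⟨e1 ≪≫ e2⟩

variable {𝒜 : Type u} [Category.{v} 𝒜] [Abelian 𝒜]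

lemma IsStable.iso {T : 𝒜 ⥤ 𝒜} {P : 𝒜 → Prop} (hP : IsStable T P) {A B : 𝒜} (e : Nonempty (A ≅ B))
    (h : P B) : P A := hP.subquotient A B (.of_iso e) h

omit [Abelian 𝒜] in
lemma IsStable.tpow {T : 𝒜 ⥤ 𝒜} {P : 𝒜 → Prop} (hP : IsStable T P) (m : ℕ) (A : 𝒜) :
    P (tpow T m A) ↔ P A := by
  induction m with
  | zero => exact Iff.rfl
  | succ m ih =>
    unfold ON.tpow at *
    rw [Function.iterate_succ_apply', ← hP.twist, ih]

omit [IsNoetherianRing R] in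
lemma Weights.tpow {H : Coh 𝒜 R} {C : Sch R → Prop} (W : Weights H C) (m : ℕ) (w : ℤ) (A : 𝒜) :
    Nonempty ((W.gr (w + 2 * m)).obj (tpow H.T m A) ≅ tpow H.T m ((W.gr w).obj A)) := by
  induction m with
  | zero =>
    simp only [Nat.cast_zero, mul_zero, add_zero]
    exact ⟨Iso.refl _⟩
  | succ m ih =>
    unfold ON.tpow at *
    rw [Function.iterate_succ_apply', Function.iterate_succ_apply']
    obtain ⟨e⟩ := ih
    obtain ⟨e'⟩ := W.twist (w + 2 * m) (H.T.obj^[m] A)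
    rw [show w + 2 * ((m + 1 : ℕ) : ℤ) = w + 2 * m + 2 by push_cast; ring]
    exact ⟨e' ≪≫ H.T.mapIso e⟩

/-- Stable properties. -/
theorem stable_iff (h1 : (1 : R) ∈ G) (hG : ∀ c, Gen G c) {H : Coh 𝒜 R} {C : Sch R → Prop}
    (W : Weights H C) {P : 𝒜 → Prop} (hP : IsStable H.T P) :
    ((∀ X, C X → ∀ n : ℤ, P (H.H n X)) ↔
      ∀ Y, FT True Y → ∀ w n : ℤ, P ((W.gr w).obj (H.H n Y))) ∧
    ((∀ X, C X → ∀ n : ℤ, P (H.H n X)) ↔
      ∀ (N m : ℕ) (g : Fin (m + 1) → MvPolynomial (Fin N) R), (∀ l, IsElementary G (g l)) →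
        ∀ n : ℤ, P ((W.gr (n - 1)).obj (H.H n (cubS g)))) := by
  have h2 : (∀ X, C X → ∀ n : ℤ, P (H.H n X)) →
      ∀ Y, FT True Y → ∀ w n : ℤ, P ((W.gr w).obj (H.H n Y)) := by
    intro h Y hY w n
    obtain ⟨X, hX, hs⟩ := W.deligne Y hY w n
    exact hP.subquotient _ _ hs (h X hX w)
  refine ⟨⟨h2, fun h X hX n => hP.iso ⟨(W.pure X hX n).some.symm⟩ (h X (W.ft X hX) n n)⟩,
    ⟨fun h N m g _ n => h2 h _ (ft_cubS g) (n - 1) n, fun h X hX n => ?_⟩⟩
  obtain ⟨N, m, s, g, hg, hn⟩ := nose.{v, u} h1 hG X (W.ft X hX) (W.jouanolou X hX) n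
  rw [← hP.tpow s]
  obtain ⟨e⟩ := hn H n le_rfl
  obtain ⟨e1⟩ := W.tpow s n (H.H n X)
  obtain ⟨e2⟩ := tpow_iso H.T s (W.pure X hX n)
  have h3 := h N m g hg (n + 1 + 2 * s)
  rw [show n + 1 + 2 * (s : ℤ) - 1 = n + 2 * s by ring] at h3
  exact hP.iso ⟨e2.symm ≪≫ e1.symm ≪≫ (W.gr (n + 2 * s)).mapIso e.symm⟩ h3

lemma isStable_isSemisimple (T : 𝒜 ⥤ 𝒜) [T.IsEquivalence] : IsStable T IsSemisimple where
  subquotient _ _ h hB := hB.subquotient h
  twist _ := ⟨fun h => h.map T, fun h => h.of_map T⟩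

end

end Pool.Agent.U583.ON
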