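import Pool.Agent.U583.ON.OriginDefs

/-!
# Geometric origin and elementary cubic hypersurfaces
-/

set_option autoImplicit false

open CategoryTheory CategoryTheory.Limits AlgebraicGeometry MvPolynomial Opposite
open Pool.Agent.Y116.UV Pool.Agent.R904.CU Pool.Agent.U583.MW

namespace Pool.Agent.U583.ON

universe v u

section devissage

variable {R : Type} [CommRing R] [IsNoetherianRing R]

/-- all simple constituents of the cohomology with compact support of `X` are constituents of the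
cohomology of one affine scheme, in the same degree -/
theorem exists_affine (X : Sch R) (hX : FT True X) :
    ∃ (B : Type) (_ : CommRing B) (_ : Algebra R B) (_ : Algebra.FiniteType R B),
      ∀ {𝒜 : Type u} [Category.{v} 𝒜] [Abelian 𝒜] (H : Coh 𝒜 R), IsAdditive H →
        ∀ (n : ℤ) (A : 𝒜), Simple A → IsSubquotient A (H.H n X) →
          IsSubquotient A (H.H n (aff R B)) := by
  refine of_affine' (sep := True) (P := fun X : Sch R =>
    FT True X → ∃ (B : Type) (_ : CommRing B) (_ : Algebra R B) (_ : Algebra.FiniteType R B),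
      ∀ {𝒜 : Type u} [Category.{v} 𝒜] [Abelian 𝒜] (H : Coh 𝒜 R), IsAdditive H →
        ∀ (n : ℤ) (A : 𝒜), Simple A → IsSubquotient A (H.H n X) →
          IsSubquotient A (H.H n (aff R B))) ?_ ?_ ?_ X hX hX
  · intro X Y hX e h _
    obtain ⟨B, i1, i2, i3, hB⟩ := h hX
    refine ⟨B, i1, i2, i3, fun {𝒜} _ _ H hH n A hA hs => hB H hH n A hA ?_⟩
    exact hs.iso_right ⟨(H.iso n X Y hX e).some.symm⟩
  · intro Z X U i j hX ht hZ hU _
    obtain ⟨B, _, _, _, hB⟩ := hZ (ft_closed i hX ht.closed)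
    obtain ⟨C, _, _, _, hC⟩ := hU (ft_opened j hX ht.opened)
    refine ⟨B × C, inferInstance, inferInstance, inferInstance,
      fun {𝒜} _ _ H hH n A hA hs => ?_⟩
    obtain ⟨a, b, d, h1, -, -⟩ := H.sequence i j hX ht
    obtain ⟨w, hex⟩ := h1 n
    obtain ⟨e⟩ := hH n B C
    rcases hs.exact (a n) (b n) w hex with h2 | h2
    · exact ((hC H hH n A hA h2).mono (biprod.inr ≫ e.inv) inferInstance)
    · exact ((hB H hH n A hA h2).mono (biprod.inl ≫ e.inv) inferInstance)
  · intro B _ _ _ _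
    exact ⟨B, inferInstance, inferInstance, inferInstance, fun H _ n A _ h => h⟩

variable {G : Set R}

/-- All simple constituents of the cohomology with compact support of `X` are, up to the twist
`(-m)`, constituents of the cohomology of one elementary cubic hypersurface. -/
theorem exists_cubic (h1 : (1 : R) ∈ G) (hG : ∀ c, Gen G c) (X : Sch R) (hX : FT True X) (n₀ : ℤ) :
    ∃ (N m : ℕ) (g : Fin (m + 1) → MvPolynomial (Fin N) R), (∀ l, IsElementary G (g l)) ∧
      ∀ {𝒜 : Type u} [Category.{v} 𝒜] [Abelian 𝒜] (H : Coh 𝒜 R), IsAdditive H →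
        ∀ n : ℤ, n ≤ n₀ → ∀ A : 𝒜, Simple A → IsSubquotient A (H.H n X) →
          IsSubquotient (tpow H.T m A) (H.H (n + 1 + 2 * m) (cubS g)) := by
  obtain ⟨B, _, _, _, hB⟩ := exists_affine.{v, u} X hX
  obtain ⟨N, m, g, hg, hn⟩ := nose_affine.{v, u} h1 hG B n₀
  refine ⟨N, m, g, hg, fun {𝒜} _ _ H hH n hn0 A hA hs => ?_⟩
  have := H.twist
  obtain ⟨e⟩ := hn H n hn0
  exact ((hB H hH n A hA hs).tpow H.T m).iso_right ⟨e.symm⟩

end devissage

section duality

variable {𝒜 : Type u} [Category.{v} 𝒜] [Abelian 𝒜] (D : 𝒜ᵒᵖ ⥤ 𝒜) [D.IsEquivalence]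

lemma IsSubquotient.dual {A B : 𝒜} (h : IsSubquotient A B) :
    IsSubquotient (D.obj (op A)) (D.obj (op B)) := by
  obtain ⟨S, i, p, hi, hp⟩ := h
  have h1 : Mono (D.map p.op) := inferInstance
  have h2 : Epi (D.map i.op) := inferInstance
  exact IsSubquotient.of_quot (D.map i.op) h2 (D.map p.op) h1

lemma IsSubquotient.of_dual {A B : 𝒜} (h : IsSubquotient (D.obj (op A)) (D.obj (op B))) :
    IsSubquotient A B := by
  obtain ⟨S, i, p, hi, hp⟩ := h
  let e := D.objObjPreimageIso S
  have h1 : Mono (e.hom ≫ i) := mono_comp _ _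
  have h2 : Epi (e.hom ≫ p) := epi_comp _ _
  let i' : D.objPreimage S ⟶ op B := D.preimage (e.hom ≫ i)
  let p' : D.objPreimage S ⟶ op A := D.preimage (e.hom ≫ p)
  have h3 : Mono i' := by
    apply D.mono_of_mono_map
    rw [D.map_preimage]
    exact h1
  have h4 : Epi p' := by
    apply D.epi_of_epi_map
    rw [D.map_preimage]
    exact h2
  have h5 : Epi i'.unop := inferInstance
  have h6 : Mono p'.unop := inferInstance
  exact IsSubquotient.of_quot i'.unop h5 p'.unop h6

lemma simple_of_dual {E : 𝒜} (h : Simple (D.obj (op E))) : Simple E := by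
  apply simple_of_cosimple
  intro Z f hf
  have h1 : Mono (D.map f.op) := inferInstance
  have h2 := Simple.mono_isIso_iff_nonzero (D.map f.op)
  constructor
  · intro h3 h4
    have h5 : IsIso (D.map f.op) := inferInstance
    apply h2.1 h5
    rw [h4, op_zero, D.map_zero]
  · intro h3
    have h4 : D.map f.op ≠ 0 := by
      intro h5
      apply h3
      have h6 : D.map f.op = D.map (0 : E ⟶ Z).op := by
        rw [h5, op_zero, D.map_zero]
      exact Quiver.Hom.op_inj (D.map_injective h6)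
    have h5 : IsIso (D.map f.op) := h2.2 h4
    have h6 : IsIso f.op := isIso_of_reflects_iso f.op D
    exact (isIso_op_iff f).1 h6

lemma exists_dual (A : 𝒜) [Simple A] : ∃ E : 𝒜, Simple E ∧ Nonempty (A ≅ D.obj (op E)) := by
  let e : D.obj (op (D.objPreimage A).unop) ≅ A := D.objObjPreimageIso A
  refine ⟨(D.objPreimage A).unop, simple_of_dual D (Simple.of_iso e), ⟨e.symm⟩⟩

end duality

section origin

variable {𝒜 : Type u} [Category.{v} 𝒜] [Abelian 𝒜] {K : Type} [Field K] {H : Coh 𝒜 K}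

lemma Ordinary.tpow (O : Ordinary H) (A : 𝒜) (m : ℕ) :
    Nonempty (tpow H.T m (O.dual.obj (op (tpow H.T m A))) ≅ O.dual.obj (op A)) := by
  induction m with
  | zero => exact ⟨Iso.refl _⟩
  | succ m ih =>
    unfold ON.tpow at *
    rw [Function.iterate_succ_apply' H.T.obj m A, Function.iterate_succ_apply]
    obtain ⟨e⟩ := ih
    obtain ⟨e'⟩ := tpow_iso H.T m (O.twist (H.T.obj^[m] A))
    exact ⟨e' ≪≫ e⟩

lemma Occurs.dual (O : Ordinary H) {A B : 𝒜} (h : Occurs H.T A B) :
    Occurs H.T (O.dual.obj (op A)) (O.dual.obj (op B)) := by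
  have := H.twist
  have := O.equivalence
  obtain ⟨a, b, h⟩ := h
  have h1 : Occurs H.T (O.dual.obj (op (ON.tpow H.T a A))) (O.dual.obj (op (ON.tpow H.T b B))) :=
    Occurs.of_sub (h.dual O.dual)
  rw [← Occurs.tpow_left a, ← Occurs.tpow_right b] at h1
  exact (h1.iso_left ⟨(O.tpow A a).some.symm⟩).iso_right (O.tpow B b)

/-- A simple object of geometric origin is of geometric origin for the elementary cubic
hypersurfaces. -/
theorem Geometric.cubic {G : Set K} (h1 : (1 : K) ∈ G) (hG : ∀ c, Gen G c) (hadd : IsAdditive H)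
    (O : Ordinary H) {A : 𝒜} (hA : Simple A) (h : Geometric O (FT True) A) :
    ∃ (N m : ℕ) (g : Fin (m + 1) → MvPolynomial (Fin N) K), (∀ l, IsElementary G (g l)) ∧
      ∃ i : ℤ, Occurs H.T A (O.Hu i (cubS g)) := by
  have := H.twist
  have := O.equivalence
  obtain ⟨Y, hY, i, a, b, h⟩ := h
  obtain ⟨A', hA', hs, ht⟩ := Occurs.exists_sub (T := H.T) (A := A) ⟨a, b, h⟩
  obtain ⟨X, d, n, hX, hsm, hs2⟩ := O.alteration Y i A' hY hA' hs
  have hd := O.duality X d (2 * d - n) hX hsm
  rw [sub_sub_cancel] at hd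
  have h2 : Occurs H.T A' (O.dual.obj (op (H.H (2 * d - n) X))) := by
    rw [← Occurs.tpow_right d]
    exact (Occurs.of_sub hs2).iso_right hd
  obtain ⟨A'', hA'', hs3, ht3⟩ := h2.exists_sub
  obtain ⟨E, hE, ⟨e⟩⟩ := exists_dual O.dual A''
  have h4 : IsSubquotient E (H.H (2 * d - n) X) := (hs3.iso_left ⟨e.symm⟩).of_dual O.dual
  obtain ⟨N, m, g, hg, hn⟩ := exists_cubic.{v, u} h1 hG X hX (2 * d - n)
  have h5 : Occurs H.T E (H.H (2 * d - n + 1 + 2 * m) (cubS g)) :=
    ⟨m, 0, hn H hadd _ le_rfl E hE h4⟩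
  have h6 := O.duality (cubS g) (m + N) (2 * d - n + 1 + 2 * m) (ft_cubS g) (smooth_cubS g)
  have h7 := h5.dual O
  rw [← Occurs.tpow_right (m + N)] at h7
  exact ⟨N, m, g, hg, _, ht _ (ht3 _ ((h7.iso_left ⟨e⟩).iso_right ⟨h6.some.symm⟩))⟩

end origin

end Pool.Agent.U583.ON
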