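import Pool.Agent.U583.ON.Main

/-!
# The cubic hypersurfaces are smooth
-/

set_option autoImplicit false

open CategoryTheory CategoryTheory.Limits AlgebraicGeometry MvPolynomial
open Pool.Agent.Y116.UV Pool.Agent.R904.CU Pool.Agent.U583.MW

namespace Pool.Agent.U583.ON

section

variable (B : Type) [CommRing B] (τ : Type)

/-- the presentation of the ring of polynomials without relations -/
noncomputable def polyPres : Algebra.SubmersivePresentation B (MvPolynomial τ B) τ Empty where
  val := X
  σ' := id
  aeval_val_σ' := fun s => by simp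
  relation := Empty.elim
  span_range_relation_eq_ker := by
    rw [Set.range_eq_empty, Ideal.span_empty]
    symm
    rw [eq_bot_iff]
    intro x hx
    have h : aeval (X : τ → MvPolynomial τ B) x = 0 := hx
    rw [aeval_X_left] at h
    exact h
  map := Empty.elim
  map_inj := fun a => a.elim
  jacobian_isUnit := by
    classical
    rw [Algebra.PreSubmersivePresentation.jacobian_eq_jacobiMatrix_det, Matrix.det_isEmpty, map_one]
    exact isUnit_one

lemma smooth_poly [Fintype τ] : Algebra.IsStandardSmoothOfRelativeDimension (Fintype.card τ) B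
    (MvPolynomial τ B) := by
  refine (polyPres B τ).isStandardSmoothOfRelativeDimension ?_
  rw [Algebra.Presentation.dimension, Nat.card_eq_fintype_card, Nat.card_eq_zero.2 (Or.inl inferInstance)]
  rfl

lemma smooth_spec [Fintype τ] : SmoothOfRelativeDimension (Fintype.card τ)
    (Spec.map (CommRingCat.ofHom (C : B →+* MvPolynomial τ B))) := by
  rw [HasRingHomProperty.Spec_iff (P := @SmoothOfRelativeDimension (Fintype.card τ))]
  apply RingHom.locally_of
  · exact RingHom.isStandardSmoothOfRelativeDimension_respectsIso
  · have := smooth_poly B τ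
    rw [← MvPolynomial.algebraMap_eq]
    exact (RingHom.isStandardSmoothOfRelativeDimension_algebraMap _).2 this

end

lemma local_smooth (n : ℕ) : IsZariskiLocalAtTarget (@SmoothOfRelativeDimension.{0} n) :=
  (HasAffineProperty.iff (P := @SmoothOfRelativeDimension.{0} n)).1
    (HasRingHomProperty.HasAffineProperty (P := @SmoothOfRelativeDimension.{0} n)
      (Q := RingHom.Locally (RingHom.IsStandardSmoothOfRelativeDimension n))) |>.1

/-- affine bundles are smooth -/
lemma smooth_bundle {n : ℕ} {E Y : Scheme.{0}} (π : E ⟶ Y) (h : IsAffineBundle n π) :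
    SmoothOfRelativeDimension n π := by
  have := local_smooth n
  apply IsZariskiLocalAtTarget.of_forall_exists_morphismRestrict
    (P := @SmoothOfRelativeDimension n)
  intro x
  obtain ⟨B, u, τ, hf, v, hc, hu, hx, hp⟩ := h x
  refine ⟨u.opensRange, hx, ?_⟩
  rw [MorphismProperty.arrow_mk_iso_iff (@SmoothOfRelativeDimension n)
    (morphismRestrictOpensRange π u)]
  have h1 : pullback.snd π u = hp.isoPullback.inv ≫
      Spec.map (CommRingCat.ofHom (C : B →+* MvPolynomial τ B)) := by
    rw [IsPullback.isoPullback_inv_snd]
  rw [h1, MorphismProperty.cancel_left_of_respectsIso (@SmoothOfRelativeDimension n), ← hc]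
  exact smooth_spec B τ

/-- The cubic hypersurface is smooth of relative dimension `m + N`. -/
lemma smooth_cubS {R : Type} [CommRing R] {N m : ℕ} (g : Fin (m + 1) → MvPolynomial (Fin N) R) :
    SmoothOfRelativeDimension (m + N) (cubS g).hom := by
  have h1 : SmoothOfRelativeDimension m (proj g) := smooth_bundle _ (isAffineBundle_prj g)
  have h2 : SmoothOfRelativeDimension N
      (Spec.map (CommRingCat.ofHom (algebraMap R (MvPolynomial (Fin N) R)))) := by
    have h := smooth_spec R (Fin N)
    rw [Fintype.card_fin] at h
    exact h
  have h3 : SmoothOfRelativeDimension (0 + N) ((openU g).ι ≫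
      Spec.map (CommRingCat.ofHom (algebraMap R (MvPolynomial (Fin N) R)))) := inferInstance
  have h4 : SmoothOfRelativeDimension (m + (0 + N)) (proj g ≫ ((openU g).ι ≫
      Spec.map (CommRingCat.ofHom (algebraMap R (MvPolynomial (Fin N) R))))) := inferInstance
  rw [Nat.zero_add, prj_comm] at h4
  exact h4

end Pool.Agent.U583.ON
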