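import Pool.Agent.U583.ON.Simple
import Pool.Agent.U583.ON.Smooth

/-!
# Cohomology with and without supports, geometric origin: definitions
-/

set_option autoImplicit false

open CategoryTheory CategoryTheory.Limits AlgebraicGeometry MvPolynomial Opposite
open Pool.Agent.Y116.UV Pool.Agent.R904.CU

namespace Pool.Agent.U583.ON

universe v u

variable {𝒜 : Type u} [Category.{v} 𝒜] [Abelian 𝒜]

/-- The cohomology with compact support of `Spec (B × C)`, the disjoint union of `Spec B` and
`Spec C`, is the direct sum of those of `Spec B` and `Spec C`. -/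
def IsAdditive {R : Type} [CommRing R] (H : Coh 𝒜 R) : Prop :=
  ∀ (n : ℤ) (B C : Type) [CommRing B] [CommRing C] [Algebra R B] [Algebra R C]
    [Algebra.FiniteType R B] [Algebra.FiniteType R C],
    Nonempty (H.H n (aff R (B × C)) ≅ H.H n (aff R B) ⊞ H.H n (aff R C))

/-- The properties of the cohomology `Hu n X = H^n(X)` without supports which are used, in its relation
to the cohomology with compact support `H`, over a field `K`. -/
structure Ordinary {K : Type} [Field K] (H : Coh 𝒜 K) where
  /-- the cohomology without supports in degree `n` -/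
  Hu : ℤ → Sch K → 𝒜
  /-- the functor `A ↦ A^∨` -/
  dual : 𝒜ᵒᵖ ⥤ 𝒜
  /-- it is an equivalence of categories -/
  equivalence : dual.IsEquivalence
  /-- `A(-1)^∨ = A^∨(1)` -/
  twist : ∀ A : 𝒜, Nonempty (H.T.obj (dual.obj (op (H.T.obj A))) ≅ dual.obj (op A))
  /-- Poincaré duality `H^{2d-n}(X) = H^n_c(X)^∨(-d)` for smooth `X` of dimension `d` -/
  duality : ∀ (X : Sch K) (d : ℕ) (n : ℤ), FT True X → SmoothOfRelativeDimension d X.hom →
    Nonempty (Hu (2 * d - n) X ≅ tpow H.T d (dual.obj (op (H.H n X))))
  /-- a simple constituent of the cohomology of a separated scheme of finite type is a constituent of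
  the cohomology of a smooth one (de Jong's alterations and cohomological descent) -/
  alteration : ∀ (X : Sch K) (n : ℤ) (A : 𝒜), FT True X → Simple A → IsSubquotient A (Hu n X) →
    ∃ (X' : Sch K) (d : ℕ) (n' : ℤ), FT True X' ∧ SmoothOfRelativeDimension d X'.hom ∧
      IsSubquotient A (Hu n' X')

/-- The object `A` is of geometric origin, for the schemes in the class `P`: a Tate twist of `A` is a
subquotient of the cohomology of some `Y` in `P`. -/
def Geometric {K : Type} [Field K] {H : Coh 𝒜 K} (O : Ordinary H) (P : Sch K → Prop) (A : 𝒜) :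
    Prop :=
  ∃ Y, P Y ∧ ∃ (i : ℤ) (a b : ℕ), IsSubquotient (tpow H.T a A) (tpow H.T b (O.Hu i Y))

end Pool.Agent.U583.ON
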