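import Pool.Agent.U583.ON.Origin

/-!
# Finite separable extensions

Let `F` be a finite separable extension of the field `k`. An algebra `B` over `F` is a direct factor of
`F ⊗_k B`, which has a presentation with coefficients in `k`.
-/

set_option autoImplicit false

open CategoryTheory CategoryTheory.Limits AlgebraicGeometry MvPolynomial TensorProduct
open Pool.Agent.Y116.UV Pool.Agent.R904.CU

namespace Pool.Agent.U583.ON

section factor

variable (k F : Type) [Field k] [Field F] [Algebra k F] (B : Type) [CommRing B] [Algebra F B]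
  [Algebra k B] [IsScalarTower k F B]

/-- the multiplication `F ⊗ B → B` -/
noncomputable def mulB : F ⊗[k] B →ₐ[F] B :=
  Algebra.TensorProduct.lift (Algebra.ofId F B) (AlgHom.id k B) (fun _ _ => Commute.all _ _)

lemma mulB_tmul (a : F) (b : B) : mulB k F B (a ⊗ₜ b) = algebraMap F B a * b := rfl

variable [FiniteDimensional k F] [Algebra.IsSeparable k F]

/-- the idempotent -/
noncomputable def idem : F ⊗[k] B :=
  have : Algebra.FormallyUnramified k F := Algebra.FormallyUnramified.of_isSeparable k F
  Algebra.TensorProduct.map (AlgHom.id k F) (IsScalarTower.toAlgHom k F B)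
    (Algebra.FormallyUnramified.elem k F)

lemma mulB_idem : mulB k F B (idem k F B) = 1 := by
  have : Algebra.FormallyUnramified k F := Algebra.FormallyUnramified.of_isSeparable k F
  have h1 : ∀ x : F ⊗[k] F, mulB k F B (Algebra.TensorProduct.map (AlgHom.id k F)
      (IsScalarTower.toAlgHom k F B) x) = algebraMap F B (Algebra.TensorProduct.lmul' k x) := by
    intro x
    induction x using TensorProduct.induction_on with
    | zero => simp only [map_zero]
    | tmul a b =>
      rw [Algebra.TensorProduct.map_tmul, mulB_tmul]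
      change algebraMap F B a * algebraMap F B b = algebraMap F B (a * b)
      rw [map_mul]
    | add x y hx hy => simp only [map_add, hx, hy]
  have h2 := h1 (Algebra.FormallyUnramified.elem k F)
  rw [Algebra.FormallyUnramified.lmul_elem, map_one] at h2
  exact h2

lemma tmul_idem (a : F) : (a ⊗ₜ[k] (1 : B)) * idem k F B =
    ((1 : F) ⊗ₜ[k] algebraMap F B a) * idem k F B := by
  have : Algebra.FormallyUnramified k F := Algebra.FormallyUnramified.of_isSeparable k F
  have h1 := congrArg (Algebra.TensorProduct.map (AlgHom.id k F) (IsScalarTower.toAlgHom k F B))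
    (Algebra.FormallyUnramified.one_tmul_mul_elem (R := k) (S := F) a)
  rw [map_mul, map_mul, Algebra.TensorProduct.map_tmul, Algebra.TensorProduct.map_tmul, map_one,
    map_one] at h1
  exact h1.symm

lemma mul_idem (x : F ⊗[k] B) : x * idem k F B =
    ((1 : F) ⊗ₜ[k] mulB k F B x) * idem k F B := by
  induction x using TensorProduct.induction_on with
  | zero => rw [map_zero, tmul_zero]
  | tmul a b =>
    have h1 : a ⊗ₜ[k] b = ((1 : F) ⊗ₜ[k] b) * (a ⊗ₜ[k] (1 : B)) := by
      rw [Algebra.TensorProduct.tmul_mul_tmul, one_mul, mul_one]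
    have h2 : (1 : F) ⊗ₜ[k] mulB k F B (a ⊗ₜ b) = ((1 : F) ⊗ₜ[k] b) *
        ((1 : F) ⊗ₜ[k] algebraMap F B a) := by
      rw [Algebra.TensorProduct.tmul_mul_tmul, one_mul, mulB_tmul, mul_comm]
    rw [h2, h1, mul_assoc, mul_assoc, tmul_idem]
  | add x y hx hy => rw [add_mul, hx, hy, map_add, tmul_add, add_mul]

/-- `B` is a direct factor of `F ⊗ B`. -/
theorem factor : Nonempty ((F ⊗[k] B) ≃ₐ[F] B × ((F ⊗[k] B) ⧸ Ideal.span {idem k F B})) := by
  let f : (F ⊗[k] B) →ₐ[F] B × ((F ⊗[k] B) ⧸ Ideal.span {idem k F B}) :=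
    AlgHom.prod (mulB k F B) (Ideal.Quotient.mkₐ F _)
  have hee : idem k F B * idem k F B = idem k F B := by
    rw [mul_idem, mulB_idem]
    exact one_mul _
  refine ⟨AlgEquiv.ofBijective f ⟨?_, ?_⟩⟩
  · rw [injective_iff_map_eq_zero]
    intro x hx
    have h1 : mulB k F B x = 0 := congrArg Prod.fst hx
    have h2 : Ideal.Quotient.mk (Ideal.span {idem k F B}) x = 0 := congrArg Prod.snd hx
    rw [Ideal.Quotient.eq_zero_iff_mem, Ideal.mem_span_singleton'] at h2
    obtain ⟨y, rfl⟩ := h2
    have h3 := mul_idem k F B (y * idem k F B)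
    rw [h1, tmul_zero, zero_mul, mul_assoc, hee] at h3
    exact h3
  · rintro ⟨b, c⟩
    obtain ⟨y, rfl⟩ := Ideal.Quotient.mk_surjective c
    refine ⟨((1 : F) ⊗ₜ[k] b) * idem k F B + y * (1 - idem k F B), ?_⟩
    apply Prod.ext
    · change mulB k F B _ = b
      rw [map_add, map_mul, map_mul, map_sub, mulB_idem, map_one, sub_self, mul_zero, add_zero,
        mul_one, mulB_tmul, map_one, one_mul]
    · change Ideal.Quotient.mk _ _ = Ideal.Quotient.mk _ y
      rw [Ideal.Quotient.eq, Ideal.mem_span_singleton']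
      refine ⟨(1 : F) ⊗ₜ[k] b - y, ?_⟩
      ring

end factor

section base

variable {k : Type} [Field k] (F : Type) [Field F] [Algebra k F] {N m : ℕ}
  (g : Fin (m + 1) → MvPolynomial (Fin N) k)

/-- extension of scalars for a presentation -/
theorem base_change {B : Type} [CommRing B] [Algebra k B]
    (e : (MvPolynomial (Fin N) k ⧸ Ideal.span (Set.range g)) ≃ₐ[k] B) :
    Nonempty ((MvPolynomial (Fin N) F ⧸ Ideal.span (Set.range fun l =>
      map (algebraMap k F) (g l))) ≃ₐ[F] (F ⊗[k] B)) := by
  let e1 : F ⊗[k] (MvPolynomial (Fin N) k ⧸ Ideal.span (Set.range g)) ≃ₐ[F] F ⊗[k] B :=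
    Algebra.TensorProduct.congr AlgEquiv.refl e
  let e2 := Algebra.TensorProduct.tensorQuotientEquiv (R := k) F (MvPolynomial (Fin N) k) F
    (Ideal.span (Set.range g))
  let e3 : F ⊗[k] MvPolynomial (Fin N) k ≃ₐ[F] MvPolynomial (Fin N) F :=
    MvPolynomial.algebraTensorAlgEquiv k F
  have h : Ideal.span (Set.range fun l => map (algebraMap k F) (g l)) =
      ((Ideal.span (Set.range g)).map (Algebra.TensorProduct.includeRight :
        MvPolynomial (Fin N) k →ₐ[k] F ⊗[k] MvPolynomial (Fin N) k)).map
        (e3 : F ⊗[k] MvPolynomial (Fin N) k →+* MvPolynomial (Fin N) F) := by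
    rw [Ideal.map_span, Ideal.map_span, ← Set.range_comp, ← Set.range_comp]
    congr 1
    apply congrArg
    funext l
    change map (algebraMap k F) (g l) = e3 ((1 : F) ⊗ₜ[k] g l)
    rw [MvPolynomial.algebraTensorAlgEquiv_tmul, one_smul]
  have e4 := Ideal.quotientEquivAlg _ _ e3 h
  exact ⟨e4.symm.trans (e2.symm.trans e1)⟩

lemma IsElementary.base {G : Set k} {f : MvPolynomial (Fin N) k} (h : IsElementary (insert 1 G) f) :
    IsElementary (insert 1 (algebraMap k F '' G)) (map (algebraMap k F) f) := by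
  rcases h with ⟨i, c, hc, rfl⟩ | ⟨i, j, l, rfl⟩ | ⟨i, j, l, rfl⟩
  · left
    refine ⟨i, algebraMap k F c, ?_, by rw [map_sub, map_X, map_C]⟩
    rcases hc with rfl | hc
    · rw [map_one]
      exact Set.mem_insert _ _
    · exact Set.mem_insert_of_mem _ ⟨c, hc, rfl⟩
  · right; left
    exact ⟨i, j, l, by rw [map_sub, map_add, map_X, map_X, map_X]⟩
  · right; right
    exact ⟨i, j, l, by rw [map_sub, map_mul, map_X, map_X, map_X]⟩

end base

end Pool.Agent.U583.ON
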