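import Pool.Agent.U583.ON.Sep

/-!
# Elementary cubic hypersurfaces over a finite separable extension of the field generated by `G`
-/

set_option autoImplicit false

open CategoryTheory CategoryTheory.Limits AlgebraicGeometry MvPolynomial TensorProduct Opposite
open Pool.Agent.Y116.UV Pool.Agent.R904.CU Pool.Agent.U583.MW

namespace Pool.Agent.U583.ON

universe v u

/-- the cohomology of an affine scheme with a given presentation -/
theorem nose_pres {R : Type} [CommRing R] [IsNoetherianRing R] {N m : ℕ}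
    (g : Fin (m + 1) → MvPolynomial (Fin N) R) {B : Type} [CommRing B] [Algebra R B]
    (e : Nonempty ((MvPolynomial (Fin N) R ⧸ Ideal.span (Set.range g)) ≃ₐ[R] B))
    {𝒜 : Type u} [Category.{v} 𝒜] [Abelian 𝒜] (H : Coh 𝒜 R) (n : ℤ) (hn : n + 1 < 2 * N) :
    Nonempty (H.H (n + 1 + 2 * m) (cubS g) ≅ tpow H.T m (H.H n (aff R B))) := by
  obtain ⟨e⟩ := e
  have hs := H.sequence _ _ (ft_aff True) (triple_cmp g)
  obtain ⟨e1⟩ := iso_of_isLongExact hs n (H.space n N (by omega))
    (H.space (n + 1) N (by omega))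
  obtain ⟨e2⟩ := H.bundle (n + 1) m (prj g) (ft_cubS g) (ft_cmp g) (isAffineBundle_prj g)
  obtain ⟨e3⟩ := H.iso n _ _ (ft_aff True) ⟨(affIso e).symm⟩
  obtain ⟨e4⟩ := tpow_iso H.T m ⟨e1.symm ≪≫ e3⟩
  exact ⟨e2 ≪≫ e4⟩

section

variable {k F : Type} [Field k] [Field F] [Algebra k F] [FiniteDimensional k F]
  [Algebra.IsSeparable k F] {G : Set k}

/-- the cubic hypersurface over `F` of polynomials over `k` -/
noncomputable def cubF (F : Type) [Field F] [Algebra k F] {N m : ℕ}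
    (g : Fin (m + 1) → MvPolynomial (Fin N) k) : Sch F :=
  cubS fun l => map (algebraMap k F) (g l)

/-- All simple constituents of the cohomology with compact support of the scheme `X` over `F` are, up to
the twist `(-m)`, constituents of the cohomology of one cubic hypersurface `∑ y_l g_l(x) = 1` with
elementary polynomials `g_l` over `k`. -/
theorem exists_cubF (hG : Subfield.closure G = ⊤) (X : Sch F) (hX : FT True X) (n₀ : ℤ) :
    ∃ (N m : ℕ) (g : Fin (m + 1) → MvPolynomial (Fin N) k),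
      (∀ l, IsElementary (insert 1 G) (g l)) ∧
      ∀ {𝒜 : Type u} [Category.{v} 𝒜] [Abelian 𝒜] (H : Coh 𝒜 F), IsAdditive H →
        ∀ n : ℤ, n ≤ n₀ → ∀ A : 𝒜, Simple A → IsSubquotient A (H.H n X) →
          IsSubquotient (tpow H.T m A) (H.H (n + 1 + 2 * m) (cubF F g)) := by
  obtain ⟨B, _, _, _, hB⟩ := exists_affine.{v, u} X hX
  letI : Algebra k B := ((algebraMap F B).comp (algebraMap k F)).toAlgebra
  have hst : IsScalarTower k F B := IsScalarTower.of_algebraMap_eq fun _ => rfl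
  have hft : Algebra.FiniteType k B := Algebra.FiniteType.trans (S := F) inferInstance inferInstance
  obtain ⟨N, m, g, hN, hg, ⟨e⟩⟩ := exists_elementary_ge (Set.mem_insert _ _)
    (gen_of_closure k G hG) B (n₀.toNat + 1)
  obtain ⟨e1⟩ := base_change F g e
  obtain ⟨e2⟩ := factor k F B
  have hft2 : Algebra.FiniteType F (F ⊗[k] B) := inferInstance
  refine ⟨N, m, g, hg, fun {𝒜} _ _ H hH n hn0 A hA hs => ?_⟩
  have := H.twist
  obtain ⟨e3⟩ := hH n B ((F ⊗[k] B) ⧸ Ideal.span {idem k F B})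
  obtain ⟨e4⟩ := H.iso n _ _ (ft_aff True) ⟨affIso e2⟩
  have h1 : IsSubquotient A (H.H n (aff F (F ⊗[k] B))) :=
    (((hB H hH n A hA hs).mono biprod.inl inferInstance).iso_right ⟨e3.symm⟩).iso_right ⟨e4⟩
  obtain ⟨e5⟩ := nose_pres (fun l => map (algebraMap k F) (g l)) ⟨e1⟩ H n (by omega)
  exact (h1.tpow H.T m).iso_right ⟨e5.symm⟩

variable {𝒜 : Type u} [Category.{v} 𝒜] [Abelian 𝒜] {H : Coh 𝒜 F}

/-- A simple object of geometric origin is of geometric origin for the cubic hypersurfaces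
`∑ y_l g_l(x) = 1` with elementary polynomials `g_l` over `k`. -/
theorem Geometric.cubF (hG : Subfield.closure G = ⊤) (hadd : IsAdditive H)
    (O : Ordinary H) {A : 𝒜} (hA : Simple A) (h : Geometric O (FT True) A) :
    ∃ (N m : ℕ) (g : Fin (m + 1) → MvPolynomial (Fin N) k),
      (∀ l, IsElementary (insert 1 G) (g l)) ∧ ∃ i : ℤ, Occurs H.T A (O.Hu i (cubF F g)) := by
  have := H.twist
  have := O.equivalence
  obtain ⟨Y, hY, i, a, b, h⟩ := h
  obtain ⟨A', hA', hs, ht⟩ := Occurs.exists_sub (T := H.T) (A := A) ⟨a, b, h⟩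
  obtain ⟨X, d, n, hX, hsm, hs2⟩ := O.alteration Y i A' hY hA' hs
  have hd := O.duality X d (2 * d - n) hX hsm
  rw [sub_sub_cancel] at hd
  have h2 : Occurs H.T A' (O.dual.obj (op (H.H (2 * d - n) X))) := by
    rw [← Occurs.tpow_right d]
    exact (Occurs.of_sub hs2).iso_right hd
  obtain ⟨A'', hA'', hs3, ht3⟩ := h2.exists_sub
  obtain ⟨E, hE, ⟨e⟩⟩ := exists_dual O.dual A''
  have h4 : IsSubquotient E (H.H (2 * d - n) X) := (hs3.iso_left ⟨e.symm⟩).of_dual O.dual
  obtain ⟨N, m, g, hg, hn⟩ := exists_cubF.{v, u} hG X hX (2 * d - n)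
  have h5 : Occurs H.T E (H.H (2 * d - n + 1 + 2 * m) (ON.cubF F g)) :=
    ⟨m, 0, hn H hadd _ le_rfl E hE h4⟩
  have h6 := O.duality (ON.cubF F g) (m + N) (2 * d - n + 1 + 2 * m) (ft_cubS _) (smooth_cubS _)
  have h7 := h5.dual O
  rw [← Occurs.tpow_right (m + N)] at h7
  exact ⟨N, m, g, hg, _, ht _ (ht3 _ ((h7.iso_left ⟨e⟩).iso_right ⟨h6.some.symm⟩))⟩

omit [FiniteDimensional k F] [Algebra.IsSeparable k F] in
/-- The twist in the cohomology of the cubic hypersurface can be removed. -/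
theorem of_cubF {N m : ℕ} (g : Fin (m + 1) → MvPolynomial (Fin N) k) {A : 𝒜} {j : ℤ}
    (h : IsSubquotient (tpow H.T m A) (H.H j (ON.cubF F g))) :
    ∃ Y, FT True Y ∧ IsSubquotient A (H.H (j - 2 * m) Y) := by
  have := H.twist
  refine ⟨cmp fun l => map (algebraMap k F) (g l), ft_cmp _, ?_⟩
  obtain ⟨e⟩ := H.bundle (j - 2 * m) m (prj fun l => map (algebraMap k F) (g l)) (ft_cubS _)
    (ft_cmp _) (isAffineBundle_prj _)
  rw [sub_add_cancel] at e
  exact (h.iso_right ⟨e⟩).of_tpow H.T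

end

end Pool.Agent.U583.ON
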