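import Pool.Agent.U583.ON.Main

/-!
# Simple constituents of the cohomology
-/

set_option autoImplicit false

open CategoryTheory CategoryTheory.Limits AlgebraicGeometry MvPolynomial Opposite
open Pool.Agent.Y116.UV Pool.Agent.R904.CU

namespace Pool.Agent.U583.ON

universe v u

section abelian

variable {𝒜 : Type u} [Category.{v} 𝒜] [Abelian 𝒜]

lemma IsSubquotient.refl (A : 𝒜) : IsSubquotient A A := ⟨A, 𝟙 A, 𝟙 A, inferInstance, inferInstance⟩

lemma IsSubquotient.iso_left {A A' B : 𝒜} (h : IsSubquotient A B) (e : Nonempty (A' ≅ A)) :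
    IsSubquotient A' B := by
  obtain ⟨S, i, p, hi, hp⟩ := h
  obtain ⟨e⟩ := e
  exact ⟨S, i, p ≫ e.inv, hi, epi_comp _ _⟩

lemma IsSubquotient.mono {A B B' : 𝒜} (h : IsSubquotient A B) (j : B ⟶ B') (hj : Mono j) :
    IsSubquotient A B' := by
  obtain ⟨S, i, p, hi, hp⟩ := h
  exact ⟨S, i ≫ j, p, mono_comp _ _, hp⟩

lemma IsSubquotient.iso_right {A B B' : 𝒜} (h : IsSubquotient A B) (e : Nonempty (B ≅ B')) :
    IsSubquotient A B' := by
  obtain ⟨e⟩ := e
  exact h.mono e.hom inferInstance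

lemma IsSubquotient.epi {A B B' : 𝒜} (h : IsSubquotient A B) (q : B' ⟶ B) (hq : Epi q) :
    IsSubquotient A B' := by
  obtain ⟨S, i, p, hi, hp⟩ := h
  refine ⟨pullback i q, pullback.snd i q, pullback.fst i q ≫ p, inferInstance, ?_⟩
  have : Epi (pullback.fst i q) := Abelian.epi_pullback_of_epi_g i q
  exact epi_comp _ _

/-- a subobject of a quotient is a subquotient -/
lemma IsSubquotient.of_quot {A B Q : 𝒜} (q : B ⟶ Q) (hq : Epi q) (i : A ⟶ Q) (hi : Mono i) :
    IsSubquotient A B :=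
  ((IsSubquotient.refl A).mono i hi).epi q hq

/-- a simple constituent of the middle term of an exact sequence -/
lemma IsSubquotient.exact {A X B Z : 𝒜} [Simple A] (f : X ⟶ B) (g : B ⟶ Z) (w : f ≫ g = 0)
    (hex : (ShortComplex.mk f g w).Exact) (h : IsSubquotient A B) :
    IsSubquotient A X ∨ IsSubquotient A Z := by
  obtain ⟨S, i, p, hi, hp⟩ := h
  by_cases hz : kernel.ι (i ≫ g) ≫ p = 0
  · right
    refine ⟨Abelian.coimage (i ≫ g), Abelian.factorThruCoimage (i ≫ g),
      cokernel.desc (kernel.ι (i ≫ g)) p hz, inferInstance, ?_⟩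
    have h1 : Abelian.coimage.π (i ≫ g) ≫ cokernel.desc (kernel.ι (i ≫ g)) p hz = p :=
      cokernel.π_desc _ _ _
    have h2 : Epi (Abelian.coimage.π (i ≫ g) ≫ cokernel.desc (kernel.ι (i ≫ g)) p hz) := by
      rw [h1]
      exact hp
    exact epi_of_epi (Abelian.coimage.π (i ≫ g)) _
  · left
    have hq : Epi (kernel.ι (i ≫ g) ≫ p) := epi_of_nonzero_to_simple hz
    let e : X ⟶ kernel g := kernel.lift g f w
    have he : Epi e := hex.epi_kernelLift
    let k : kernel (i ≫ g) ⟶ kernel g := kernel.lift g (kernel.ι (i ≫ g) ≫ i) (by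
      rw [Category.assoc, kernel.condition])
    have hk : Mono k := by
      have h1 : k ≫ kernel.ι g = kernel.ι (i ≫ g) ≫ i := kernel.lift_ι _ _ _
      have h2 : Mono (k ≫ kernel.ι g) := by
        rw [h1]
        exact mono_comp _ _
      exact mono_of_mono k (kernel.ι g)
    have h3 : IsSubquotient A (kernel g) := ⟨_, k, _, hk, hq⟩
    exact h3.epi e he

variable (T : 𝒜 ⥤ 𝒜) [T.IsEquivalence]

lemma IsSubquotient.map {A B : 𝒜} (h : IsSubquotient A B) : IsSubquotient (T.obj A) (T.obj B) := by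
  obtain ⟨S, i, p, hi, hp⟩ := h
  exact ⟨T.obj S, T.map i, T.map p, inferInstance, inferInstance⟩

lemma IsSubquotient.of_map {A B : 𝒜} (h : IsSubquotient (T.obj A) (T.obj B)) :
    IsSubquotient A B := by
  obtain ⟨S, i, p, hi, hp⟩ := h
  let e := T.objObjPreimageIso S
  have h1 : Mono (e.hom ≫ i) := mono_comp _ _
  have h2 : Epi (e.hom ≫ p) := epi_comp _ _
  refine ⟨T.objPreimage S, T.preimage (e.hom ≫ i), T.preimage (e.hom ≫ p), ?_, ?_⟩
  · apply T.mono_of_mono_map
    rw [T.map_preimage]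
    exact h1
  · apply T.epi_of_epi_map
    rw [T.map_preimage]
    exact h2

lemma IsSubquotient.tpow {A B : 𝒜} (h : IsSubquotient A B) (m : ℕ) :
    IsSubquotient (tpow T m A) (tpow T m B) := by
  induction m with
  | zero => exact h
  | succ m ih =>
    unfold ON.tpow at *
    rw [Function.iterate_succ_apply', Function.iterate_succ_apply']
    exact ih.map T

lemma IsSubquotient.of_tpow {A B : 𝒜} {m : ℕ} (h : IsSubquotient (ON.tpow T m A) (ON.tpow T m B)) :
    IsSubquotient A B := by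
  induction m with
  | zero => exact h
  | succ m ih =>
    unfold ON.tpow at *
    rw [Function.iterate_succ_apply', Function.iterate_succ_apply'] at h
    exact ih (h.of_map T)

lemma simple_tpow (A : 𝒜) [Simple A] (m : ℕ) : Simple (tpow T m A) := by
  induction m with
  | zero => assumption
  | succ m ih =>
    unfold tpow at *
    rw [Function.iterate_succ_apply']
    exact simple_obj T _

lemma exists_tpow (A : 𝒜) (m : ℕ) : ∃ B : 𝒜, Nonempty (tpow T m B ≅ A) := by
  induction m generalizing A with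
  | zero => exact ⟨A, ⟨Iso.refl _⟩⟩
  | succ m ih =>
    obtain ⟨B, ⟨e⟩⟩ := ih (T.objPreimage A)
    refine ⟨B, ?_⟩
    unfold tpow at *
    rw [Function.iterate_succ_apply']
    exact ⟨T.mapIso e ≪≫ T.objObjPreimageIso A⟩

lemma simple_of_tpow {A : 𝒜} {m : ℕ} (h : Simple (tpow T m A)) : Simple A := by
  induction m with
  | zero => exact h
  | succ m ih =>
    unfold tpow at *
    rw [Function.iterate_succ_apply'] at h
    exact ih ((simple_obj_iff T _).1 h)

/-- A Tate twist of `A` is a subquotient of a Tate twist of `B`. -/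
def Occurs (T : 𝒜 ⥤ 𝒜) (A B : 𝒜) : Prop := ∃ a b : ℕ, IsSubquotient (tpow T a A) (tpow T b B)

variable {T}

lemma Occurs.of_sub {A B : 𝒜} (h : IsSubquotient A B) : Occurs T A B := ⟨0, 0, h⟩

omit [T.IsEquivalence] in
lemma Occurs.iso_left {A A' B : 𝒜} (h : Occurs T A B) (e : Nonempty (A' ≅ A)) : Occurs T A' B := by
  obtain ⟨a, b, h⟩ := h
  exact ⟨a, b, h.iso_left (tpow_iso T a e)⟩

omit [T.IsEquivalence] in
lemma Occurs.iso_right {A B B' : 𝒜} (h : Occurs T A B) (e : Nonempty (B ≅ B')) : Occurs T A B' := by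
  obtain ⟨a, b, h⟩ := h
  exact ⟨a, b, h.iso_right (tpow_iso T b e)⟩

lemma Occurs.tpow_left {A B : 𝒜} (m : ℕ) : Occurs T (tpow T m A) B ↔ Occurs T A B := by
  constructor
  · rintro ⟨a, b, h⟩
    exact ⟨a + m, b, by rwa [tpow_add]⟩
  · rintro ⟨a, b, h⟩
    refine ⟨a, m + b, ?_⟩
    rw [← tpow_add, Nat.add_comm a m, tpow_add, tpow_add]
    exact h.tpow T m

lemma Occurs.tpow_right {A B : 𝒜} (m : ℕ) : Occurs T A (tpow T m B) ↔ Occurs T A B := by
  constructor
  · rintro ⟨a, b, h⟩
    exact ⟨a, b + m, by rwa [tpow_add]⟩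
  · rintro ⟨a, b, h⟩
    refine ⟨m + a, b, ?_⟩
    rw [← tpow_add, Nat.add_comm b m, tpow_add, tpow_add]
    exact h.tpow T m

/-- an occurrence is a subquotient after a change of the object by twists -/
lemma Occurs.exists_sub {A B : 𝒜} [Simple A] (h : Occurs T A B) : ∃ A' : 𝒜, Simple A' ∧
    IsSubquotient A' B ∧ ∀ C : 𝒜, Occurs T A' C → Occurs T A C := by
  obtain ⟨a, b, h⟩ := h
  obtain ⟨A', ⟨e⟩⟩ := exists_tpow T (tpow T a A) b
  have h1 : Simple (tpow T b A') := by
    have := simple_tpow T A a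
    exact Simple.of_iso e
  refine ⟨A', simple_of_tpow T h1, (h.iso_left ⟨e⟩).of_tpow T, fun C hC => ?_⟩
  rw [← Occurs.tpow_left a]
  exact ((Occurs.tpow_left b).2 hC).iso_left ⟨e.symm⟩

end abelian

end Pool.Agent.U583.ON
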